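import Pool.Agent.J4H93.HN.Stm

set_option autoImplicit false

namespace Pool.Agent.J4H70.HN

open Finset Filter
open Pool.Agent.J4H93.HN

theorem card_Dv {P : Finset ℕ} (hP : ∀ p ∈ P, p.Prime) {d : ℕ} (hd : 0 < d) :
    2 ^ (Dv P d).card ≤ d := by
  have h1 : ∏ p ∈ Dv P d, p ∣ d := by
    apply Finset.prod_primes_dvd
    · intro p hp
      rw [Dv, mem_filter] at hp
      exact (hP p hp.1).prime
    · intro p hp
      rw [Dv, mem_filter] at hp
      exact hp.2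
  refine le_trans ?_ (Nat.le_of_dvd hd h1)
  rw [← prod_const]
  apply prod_le_prod'
  intro p hp
  rw [Dv, mem_filter] at hp
  exact (hP p hp.1).two_le

theorem R_Dv_le (V d : ℕ) (hl : 1 ≤ Nat.log 2 V) :
    R (Dv (PA V) d) ≤ (Dv (PA V) d).card / (Nat.log 2 V : ℝ) ^ 3 := by
  rw [R]
  have h1 : ∀ p ∈ Dv (PA V) d, (1 : ℝ) / p ≤ 1 / (Nat.log 2 V : ℝ) ^ 3 := by
    intro p hp
    rw [Dv, mem_filter, PA, mem_filter, mem_Ioc] at hp
    have h2 : ((Nat.log 2 V : ℝ)) ^ 3 ≤ p := by exact_mod_cast hp.1.1.1.le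
    have h3 : (0 : ℝ) < (Nat.log 2 V : ℝ) ^ 3 := by
      have : (1 : ℝ) ≤ Nat.log 2 V := by exact_mod_cast hl
      positivity
    exact one_div_le_one_div_of_le h3 h2
  refine (sum_le_sum h1).trans (le_of_eq ?_)
  rw [sum_const, nsmul_eq_mul]
  ring

theorem t_FEW : S_ME0 → S_FEW := by
  intro hME
  have hl : Tendsto (fun V : ℕ => Nat.log 2 V) atTop atTop :=
    Filter.tendsto_atTop.2 (fun b => (eventually_ge_atTop (2 ^ b)).mono (fun V hV => by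
      calc b = Nat.log 2 (2 ^ b) := (Nat.log_pow (by norm_num) b).symm
        _ ≤ Nat.log 2 V := Nat.log_mono_right hV))
  filter_upwards [hl.eventually_ge_atTop 200, hME.1.eventually_ge_atTop 1] with V hV hL
  intro d hd hdle
  set ℓ : ℕ := Nat.log 2 V with hℓ
  set L : ℝ := R (PA V) with hLdef
  set k : ℕ := ⌊2 * L⌋₊ with hk
  have hk2 : (k : ℝ) ≤ 2 * L := Nat.floor_le (by linarith)
  have hV2 : V ≤ 2 ^ (ℓ + 1) := (Nat.lt_pow_succ_log_self (by norm_num) V).le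
  have hcard : (Dv (PA V) d).card ≤ 1 + 240 * (ℓ + 1) * k := by
    have h1 : 2 ^ (Dv (PA V) d).card ≤ 2 ^ (1 + 240 * (ℓ + 1) * k) := by
      calc 2 ^ (Dv (PA V) d).card ≤ d := card_Dv (fun p hp => by
            rw [PA, mem_filter] at hp
            exact hp.2) hd
        _ ≤ 2 * (V ^ k) ^ 240 := hdle
        _ ≤ 2 * ((2 ^ (ℓ + 1)) ^ k) ^ 240 :=
          Nat.mul_le_mul_left 2 (Nat.pow_le_pow_left (Nat.pow_le_pow_left hV2 k) 240)
        _ = 2 ^ (1 + 240 * (ℓ + 1) * k) := by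
          rw [← pow_mul, ← pow_mul, pow_add, pow_one]
          congr 2
          ring
    exact (Nat.pow_le_pow_iff_right (by norm_num)).1 h1
  have hcr : ((Dv (PA V) d).card : ℝ) ≤ 1 + 240 * (ℓ + 1) * k := by exact_mod_cast hcard
  have hlr : (200 : ℝ) ≤ ℓ := by exact_mod_cast hV
  have h3 : (0 : ℝ) < (ℓ : ℝ) ^ 3 := by positivity
  refine lt_of_le_of_lt (R_Dv_le V d (by omega)) ?_
  rw [div_lt_iff₀ h3]
  have h4 : ((Dv (PA V) d).card : ℝ) ≤ 483 * ℓ * L := by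
    have h5 : (240 : ℝ) * (ℓ + 1) * k ≤ 240 * (ℓ + 1) * (2 * L) :=
      mul_le_mul_of_nonneg_left hk2 (by positivity)
    nlinarith
  refine lt_of_le_of_lt h4 ?_
  have h6 : (40000 : ℝ) ≤ (ℓ : ℝ) ^ 2 := by nlinarith
  have h7 : 0 < (ℓ : ℝ) * L := by positivity
  calc 483 * (ℓ : ℝ) * L = 483 * (ℓ * L) := by ring
    _ < 8000 * (ℓ * L) := by linarith
    _ ≤ (ℓ : ℝ) ^ 2 / 5 * (ℓ * L) := mul_le_mul_of_nonneg_right (by linarith) h7.le
    _ = L / 5 * (ℓ : ℝ) ^ 3 := by ring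

end Pool.Agent.J4H70.HN
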