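import Pool.Agent.J4H93.HN.Stm

set_option autoImplicit false

namespace Pool.Agent.J4H70.HN

open Finset
open Pool.Agent.J4H93.HN

/-- the value of a pair -/
def val (z : Finset ℕ × Finset ℕ) : ℕ := (∏ p ∈ z.1, p) * ∏ q ∈ z.2, q

theorem pf_val {T U : Finset ℕ} (hT : ∀ p ∈ T, p.Prime) (hU : ∀ p ∈ U, p.Prime)
    (hd : Disjoint T U) : (val (T, U)).primeFactors = T ∪ U := by
  have h1 : val (T, U) = ∏ p ∈ T ∪ U, p := by
    rw [prod_union hd]
    rfl
  rw [h1]
  apply Nat.primeFactors_prod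
  intro p hp
  rcases mem_union.1 hp with h | h
  · exact hT p h
  · exact hU p h

theorem inj_val {P0 P1 T U T' U' : Finset ℕ} (h0 : ∀ p ∈ P0, p.Prime) (h1 : ∀ p ∈ P1, p.Prime)
    (hd : Disjoint P0 P1) (hT : T ⊆ P0) (hU : U ⊆ P1) (hT' : T' ⊆ P0) (hU' : U' ⊆ P1)
    (h : val (T, U) = val (T', U')) : T = T' ∧ U = U' := by
  have e1 := pf_val (fun p hp => h0 p (hT hp)) (fun p hp => h1 p (hU hp))
    (disjoint_of_subset_left hT (disjoint_of_subset_right hU hd))
  have e2 := pf_val (fun p hp => h0 p (hT' hp)) (fun p hp => h1 p (hU' hp))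
    (disjoint_of_subset_left hT' (disjoint_of_subset_right hU' hd))
  rw [h, e2] at e1
  have key : ∀ {T U : Finset ℕ}, T ⊆ P0 → U ⊆ P1 → T = (T ∪ U) ∩ P0 ∧ U = (T ∪ U) ∩ P1 := by
    intro T U hT hU
    constructor
    · ext p
      rw [mem_inter, mem_union]
      constructor
      · exact fun hp => ⟨Or.inl hp, hT hp⟩
      · rintro ⟨hp | hp, hp0⟩
        · exact hp
        · exact absurd (hU hp) (disjoint_left.1 hd hp0)
    · ext p
      rw [mem_inter, mem_union]
      constructor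
      · exact fun hp => ⟨Or.inr hp, hU hp⟩
      · rintro ⟨hp | hp, hp0⟩
        · exact absurd hp0 (disjoint_left.1 hd (hT hp))
        · exact hp
  obtain ⟨a1, a2⟩ := key hT hU
  obtain ⟨b1, b2⟩ := key hT' hU'
  constructor
  · rw [a1, b1, e1]
  · rw [a2, b2, e1]

theorem inv_val (z : Finset ℕ × Finset ℕ) :
    (1 : ℝ) / (val z : ℕ) = (∏ p ∈ z.1, (1 : ℝ) / p) * ∏ q ∈ z.2, (1 : ℝ) / q := by
  rw [val]
  push_cast
  rw [prod_div_distrib, prod_div_distrib, prod_const_one, prod_const_one, div_mul_div_comm, one_mul]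

theorem t_SR : S_SR := by
  intro P0 P1 k h0 h1 hd
  have hinj : Set.InjOn val ((P0.powersetCard k) ×ˢ (P1.powersetCard 11) : Finset _) := by
    rintro ⟨T, U⟩ hz ⟨T', U'⟩ hz' he
    rw [mem_coe, mem_product, mem_powersetCard, mem_powersetCard] at hz hz'
    obtain ⟨e1, e2⟩ := inj_val h0 h1 hd hz.1.1 hz.2.1 hz'.1.1 hz'.2.1 he
    rw [Prod.mk.injEq]
    exact ⟨e1, e2⟩
  have hSS : SS P0 P1 k = ((P0.powersetCard k) ×ˢ (P1.powersetCard 11)).image val := rfl
  rw [R, hSS, sum_image hinj, sum_congr rfl (fun z _ => inv_val z), sum_product, es, es, sum_mul_sum]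

/-- the sum over an image is at most the sum over the domain -/
theorem R_le {ι : Type} [DecidableEq ι] (s : Finset ι) (f : ι → ℕ) (A : Finset ℕ)
    (h : A ⊆ s.image f) : R A ≤ ∑ z ∈ s, (1 : ℝ) / f z := by
  have h1 : R A ≤ R (s.image f) := by
    rw [R, R]
    exact sum_le_sum_of_subset_of_nonneg h (fun n _ _ => by positivity)
  refine h1.trans ?_
  rw [R, ← sum_fiberwise_of_maps_to (s := s) (t := s.image f) (g := f)
    (fun z hz => mem_image_of_mem f hz)]
  apply sum_le_sum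
  intro n hn
  obtain ⟨z, hz, rfl⟩ := mem_image.1 hn
  exact single_le_sum (f := fun z => (1 : ℝ) / f z) (s := s.filter (fun w => f w = f z))
    (fun w _ => by positivity) (mem_filter.2 ⟨hz, rfl⟩)

theorem sub_Dv {P T : Finset ℕ} {x n : ℕ} (hT : T ⊆ P) (hn : n ∣ x)
    (h : ∀ p ∈ T, p ∣ n) : T ⊆ Dv P x := by
  intro p hp
  rw [Dv, mem_filter]
  exact ⟨hT hp, (h p hp).trans hn⟩

theorem dvd1 {T U : Finset ℕ} {p : ℕ} (hp : p ∈ T) : p ∣ val (T, U) :=
  (dvd_prod_of_mem (fun p => p) hp).mul_right _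

theorem dvd2 {T U : Finset ℕ} {p : ℕ} (hp : p ∈ U) : p ∣ val (T, U) :=
  (dvd_prod_of_mem (fun p => p) hp).mul_left _

theorem Dv_SS (P0 P1 : Finset ℕ) (k x : ℕ) : Dv (SS P0 P1 k) x ⊆ SS (Dv P0 x) (Dv P1 x) k := by
  intro n hn
  rw [Dv, mem_filter] at hn
  obtain ⟨hn, hx⟩ := hn
  have hSS : SS P0 P1 k = ((P0.powersetCard k) ×ˢ (P1.powersetCard 11)).image val := rfl
  rw [hSS] at hn
  obtain ⟨⟨T, U⟩, hz, rfl⟩ := mem_image.1 hn
  rw [mem_product, mem_powersetCard, mem_powersetCard] at hz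
  have hSS' : SS (Dv P0 x) (Dv P1 x) k =
    (((Dv P0 x).powersetCard k) ×ˢ ((Dv P1 x).powersetCard 11)).image val := rfl
  rw [hSS']
  refine mem_image_of_mem val ?_
  rw [mem_product, mem_powersetCard, mem_powersetCard]
  exact ⟨⟨sub_Dv hz.1.1 hx (fun p hp => dvd1 hp), hz.1.2⟩,
    ⟨sub_Dv hz.2.1 hx (fun p hp => dvd2 hp), hz.2.2⟩⟩

theorem Dv_sub (P : Finset ℕ) (x : ℕ) : Dv P x ⊆ P := filter_subset _ _

theorem t_DX : S_DX := by
  intro P0 P1 k x h0 h1 hd _
  rw [← t_SR (Dv P0 x) (Dv P1 x) k (fun p hp => h0 p (Dv_sub _ _ hp))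
    (fun p hp => h1 p (Dv_sub _ _ hp))
    (disjoint_of_subset_left (Dv_sub _ _) (disjoint_of_subset_right (Dv_sub _ _) hd))]
  rw [R, R]
  exact sum_le_sum_of_subset_of_nonneg (Dv_SS P0 P1 k x) (fun n _ _ => by positivity)

theorem t_MD : S_MD := by
  intro P0 P1 k x p h0 h1 hd _ hk
  have key : ∀ n ∈ Mu (Dv (SS P0 P1 k) x) p, ∃ T U : Finset ℕ, T ⊆ Dv P0 x ∧ T.card = k ∧
      U ⊆ Dv P1 x ∧ U.card = 11 ∧ n = val (T, U) ∧ p ∣ val (T, U) := by
    intro n hn
    rw [Mu, mem_filter] at hn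
    have h2 := Dv_SS P0 P1 k x hn.1
    have hSS' : SS (Dv P0 x) (Dv P1 x) k =
      (((Dv P0 x).powersetCard k) ×ˢ ((Dv P1 x).powersetCard 11)).image val := rfl
    rw [hSS'] at h2
    obtain ⟨⟨T, U⟩, hz, rfl⟩ := mem_image.1 h2
    rw [mem_product, mem_powersetCard, mem_powersetCard] at hz
    exact ⟨T, U, hz.1.1, hz.1.2, hz.2.1, hz.2.2, rfl, hn.2⟩
  have hmem : ∀ {T U : Finset ℕ}, T ⊆ Dv P0 x → U ⊆ Dv P1 x → p ∣ val (T, U) → p.Prime →
      p ∈ T ∪ U := by
    intro T U hT hU hpd hp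
    have hTp : ∀ p ∈ T, p.Prime := fun p hp => h0 p (Dv_sub _ _ (hT hp))
    have hUp : ∀ p ∈ U, p.Prime := fun p hp => h1 p (Dv_sub _ _ (hU hp))
    have hdis : Disjoint T U := disjoint_of_subset_left (hT.trans (Dv_sub _ _))
      (disjoint_of_subset_right (hU.trans (Dv_sub _ _)) hd)
    rw [← pf_val hTp hUp hdis, Nat.mem_primeFactors]
    refine ⟨hp, hpd, ?_⟩
    rw [val]
    apply mul_ne_zero
    · exact prod_ne_zero_iff.2 (fun q hq => (hTp q hq).ne_zero)
    · exact prod_ne_zero_iff.2 (fun q hq => (hUp q hq).ne_zero)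
  constructor
  · intro hp
    have h2 : Mu (Dv (SS P0 P1 k) x) p ⊆
        (((Dv P0 x).powersetCard (k - 1)) ×ˢ ((Dv P1 x).powersetCard 11)).image
          (fun z => p * val z) := by
      intro n hn
      obtain ⟨T, U, hT, hTk, hU, hUk, rfl, hpd⟩ := key n hn
      have hpT : p ∈ T := by
        rcases mem_union.1 (hmem hT hU hpd (h0 p hp)) with h | h
        · exact h
        · exact absurd (Dv_sub _ _ (hU h)) (disjoint_left.1 hd hp)
      refine mem_image.2 ⟨(T.erase p, U), ?_, ?_⟩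
      · rw [mem_product, mem_powersetCard, mem_powersetCard]
        refine ⟨⟨(erase_subset _ _).trans hT, ?_⟩, hU, hUk⟩
        rw [card_erase_of_mem hpT, hTk]
      · show p * ((∏ q ∈ T.erase p, q) * ∏ q ∈ U, q) = (∏ q ∈ T, q) * ∏ q ∈ U, q
        rw [← mul_assoc, mul_prod_erase T (fun q => q) hpT]
    refine (R_le _ _ _ h2).trans (le_of_eq ?_)
    rw [es, es, sum_mul_sum, mul_sum, sum_product]
    apply sum_congr rfl
    intro T hT
    rw [mul_sum]
    apply sum_congr rfl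
    intro U hU
    have := inv_val (T, U)
    push_cast
    rw [← one_div_mul_one_div_rev, mul_comm, this]
  · intro hp
    have h2 : Mu (Dv (SS P0 P1 k) x) p ⊆
        (((Dv P0 x).powersetCard k) ×ˢ ((Dv P1 x).powersetCard 10)).image
          (fun z => p * val z) := by
      intro n hn
      obtain ⟨T, U, hT, hTk, hU, hUk, rfl, hpd⟩ := key n hn
      have hpU : p ∈ U := by
        rcases mem_union.1 (hmem hT hU hpd (h1 p hp)) with h | h
        · exact absurd hp (disjoint_left.1 hd (Dv_sub _ _ (hT h)))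
        · exact h
      refine mem_image.2 ⟨(T, U.erase p), ?_, ?_⟩
      · rw [mem_product, mem_powersetCard, mem_powersetCard]
        refine ⟨⟨hT, hTk⟩, (erase_subset _ _).trans hU, ?_⟩
        rw [card_erase_of_mem hpU, hUk]
      · show p * ((∏ q ∈ T, q) * ∏ q ∈ U.erase p, q) = (∏ q ∈ T, q) * ∏ q ∈ U, q
        rw [← mul_prod_erase U (fun q => q) hpU]
        ring
    refine (R_le _ _ _ h2).trans (le_of_eq ?_)
    rw [es, es, sum_mul_sum, mul_sum, sum_product]
    apply sum_congr rfl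
    intro T hT
    rw [mul_sum]
    apply sum_congr rfl
    intro U hU
    have := inv_val (T, U)
    push_cast
    rw [← one_div_mul_one_div_rev, mul_comm, this]

end Pool.Agent.J4H70.HN
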